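import Pool.Agent.H919.FP.Wrap
import Pool.Agent.H919.FP.TW2
import Pool.Agent.H919.FP.TEX

/-!
# MP_911691_ag, Q1: a field-valued point of an algebraic stack which is not affine

ANSWER: NO, already over `k = 𝔽₂`, for an algebraic stack `X` of finite type over `𝔽₂` with quasi-compact
and SEPARATED diagonal, all of whose stabilizers are affine (this is the strongest form of the negated question
mentioned in the problem file).

The stack is given by a smooth groupoid `s, t : R ⇉ T` in schemes over `𝔽₂`, with `T` affine of finite type: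
`X = [T/R]` is an algebraic stack, `T ⟶ X` is a smooth surjection with `T ×_X T = R`.
* `X ⟶ X × X` pulled back along the smooth surjection `T × T ⟶ X × X` is `(s,t) : R ⟶ T × T`; this is
  quasi-compact and separated, hence so is the diagonal of `X`. (Products are over `𝔽₂`; since
  `Spec 𝔽₂ ⟶ Spec ℤ` is a monomorphism they agree with absolute products.)
* For a field `K` and `x : Spec K ⟶ T`, the stabilizer of the composite `Spec K ⟶ T ⟶ X` is the
  pullback of `(x,x) : Spec K ⟶ T × T` and `(s,t)`. It is affine for all `K, x`. Every `Spec K ⟶ X` lifts to `T`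
  after a finite separable field extension, and affineness descends along it, so all stabilizers of `X` are affine.
* For `x₀ : Spec 𝔽₂ ⟶ T` the fibre product of `Spec 𝔽₂ ⟶ T ⟶ X` and `T ⟶ X` is the pullback of `x₀` and `s`. It is
  not affine although `T` is affine, so the morphism `Spec 𝔽₂ ⟶ X` is not affine.

Construction. `T = Spec B` is the affine cone `z⁴ + x³z + xy³ = 0` over a smooth plane quartic in characteristic two,
`O = T ∖ {0}`. Over `O × O` the groupoid is the pair groupoid (`X` has an open point `Spec 𝔽₂`), and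
`R` is the union of `O × O` and an affine scheme `W`, smooth of relative dimension two over `T`, whose fibre over
`(0,0)` is the two-dimensional group `𝔾_m ⋉ 𝔾_a`, the stabilizer of the second point of `X`; `R ⟶ T × T` is a small
modification. The fibre of `s` over a rational point of `O` is `O`, which is not affine.
-/

open CategoryTheory Limits AlgebraicGeometry

namespace Pool.Agent.Results.MP_911691_ag.NonAffinePoint

/-- A groupoid structure, in the category of schemes, with scheme of objects `T`, scheme of arrows `R`,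
source `s` and target `t`: the identity `e`, the inverse `inv`, and the composition `mul`, defined on the
pairs `(f, g)` of arrows with `t f = s g`. The axioms are stated for `V`-valued points, `V` an arbitrary scheme
(the hypotheses `h`, `h₁`, `h₂` in the axioms are automatic, they follow from `e_s`, `e_t`, `inv_s`, `inv_t`,
`mul_s`, `mul_t`). -/
structure GroupoidStr {T R : Scheme.{0}} (s t : R ⟶ T) where
  e : T ⟶ R
  inv : R ⟶ R
  mul : pullback t s ⟶ R
  e_s : e ≫ s = 𝟙 T
  e_t : e ≫ t = 𝟙 T
  inv_s : inv ≫ s = t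
  inv_t : inv ≫ t = s
  mul_s : mul ≫ s = pullback.fst t s ≫ s
  mul_t : mul ≫ t = pullback.snd t s ≫ t
  id_mul : ∀ {V : Scheme.{0}} (f : V ⟶ R) (h : (f ≫ s ≫ e) ≫ t = f ≫ s),
    pullback.lift (f ≫ s ≫ e) f h ≫ mul = f
  mul_id : ∀ {V : Scheme.{0}} (f : V ⟶ R) (h : f ≫ t = (f ≫ t ≫ e) ≫ s),
    pullback.lift f (f ≫ t ≫ e) h ≫ mul = f
  inv_mul : ∀ {V : Scheme.{0}} (f : V ⟶ R) (h : (f ≫ inv) ≫ t = f ≫ s),
    pullback.lift (f ≫ inv) f h ≫ mul = f ≫ t ≫ e
  mul_inv : ∀ {V : Scheme.{0}} (f : V ⟶ R) (h : f ≫ t = (f ≫ inv) ≫ s),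
    pullback.lift f (f ≫ inv) h ≫ mul = f ≫ s ≫ e
  assoc : ∀ {V : Scheme.{0}} (f g k : V ⟶ R) (hfg : f ≫ t = g ≫ s) (hgk : g ≫ t = k ≫ s)
    (h₁ : (pullback.lift f g hfg ≫ mul) ≫ t = k ≫ s)
    (h₂ : f ≫ t = (pullback.lift g k hgk ≫ mul) ≫ s),
    pullback.lift (pullback.lift f g hfg ≫ mul) k h₁ ≫ mul =
      pullback.lift f (pullback.lift g k hgk ≫ mul) h₂ ≫ mul

theorem ofFP {T R : Scheme.{0}} {s t : R ⟶ T} (G : Pool.Agent.H919.FP.GroupoidStr s t) :
    Nonempty (GroupoidStr s t) := by
  refine ⟨⟨G.e, G.inv, G.mul, G.e_s, G.e_t, G.inv_s, G.inv_t, G.mul_s, G.mul_t, ?_, ?_, ?_, ?_, ?_⟩⟩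
  · intro V f h
    have h1 : pullback.lift (f ≫ s ≫ G.e) f h =
        f ≫ pullback.lift (s ≫ G.e) (𝟙 R) (by simp [G.e_t]) := by
      apply pullback.hom_ext
      · rw [pullback.lift_fst, Category.assoc, pullback.lift_fst]
        try simp
      · rw [pullback.lift_snd, Category.assoc, pullback.lift_snd]
        try simp
    rw [h1, Category.assoc, G.id_mul, Category.comp_id]
  · intro V f h
    have h1 : pullback.lift f (f ≫ t ≫ G.e) h =
        f ≫ pullback.lift (𝟙 R) (t ≫ G.e) (by simp [G.e_s]) := by
      apply pullback.hom_ext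
      · rw [pullback.lift_fst, Category.assoc, pullback.lift_fst]
        try simp
      · rw [pullback.lift_snd, Category.assoc, pullback.lift_snd]
        try simp
    rw [h1, Category.assoc, G.mul_id, Category.comp_id]
  · intro V f h
    have h1 : pullback.lift (f ≫ G.inv) f h =
        f ≫ pullback.lift G.inv (𝟙 R) (by simp [G.inv_t]) := by
      apply pullback.hom_ext
      · rw [pullback.lift_fst, Category.assoc, pullback.lift_fst]
        try simp
      · rw [pullback.lift_snd, Category.assoc, pullback.lift_snd]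
        try simp
    rw [h1, Category.assoc, G.inv_mul]
  · intro V f h
    have h1 : pullback.lift f (f ≫ G.inv) h =
        f ≫ pullback.lift (𝟙 R) G.inv (by simp [G.inv_s]) := by
      apply pullback.hom_ext
      · rw [pullback.lift_fst, Category.assoc, pullback.lift_fst]
        try simp
      · rw [pullback.lift_snd, Category.assoc, pullback.lift_snd]
        try simp
    rw [h1, Category.assoc, G.mul_inv]
  · intro V f g k hfg hgk h₁ h₂
    exact G.assoc f g k hfg hgk

/-- There are a smooth groupoid `s, t : R ⇉ T` in schemes over `Spec 𝔽₂`, with `T` affine and of finite type over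
`𝔽₂`, such that `(s,t) : R ⟶ T ×_{𝔽₂} T` is quasi-compact and separated, the stabilizer of every field-valued point
of `T` is affine, and a point `x₀ : Spec 𝔽₂ ⟶ T` such that `Spec 𝔽₂ ×_{x₀,T,s} R` is not affine. -/
theorem result :
    ∃ (T R : Scheme.{0}) (str : T ⟶ Spec (CommRingCat.of (ZMod 2))) (s t : R ⟶ T)
      (h : s ≫ str = t ≫ str),
      Nonempty (GroupoidStr s t) ∧ Smooth s ∧ Smooth t ∧
      IsAffine T ∧ LocallyOfFiniteType str ∧
      QuasiCompact (pullback.lift s t h : R ⟶ pullback str str) ∧
      IsSeparated (pullback.lift s t h : R ⟶ pullback str str) ∧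
      (∀ (K : Type) [Field K] (x : Spec (CommRingCat.of K) ⟶ T),
        IsAffine (pullback (pullback.lift x x rfl : Spec (CommRingCat.of K) ⟶ pullback str str)
          (pullback.lift s t h : R ⟶ pullback str str))) ∧
      ∃ x₀ : Spec (CommRingCat.of (ZMod 2)) ⟶ T, x₀ ≫ str = 𝟙 _ ∧ ¬ IsAffine (pullback x₀ s) := by
  obtain ⟨T, R, str, s, t, h, ⟨G⟩, hs, ht, h1, h2, h3, h4, h5, h6⟩ :=
    Pool.Agent.H919.FP.final_W2_EX Pool.Agent.H919.FP.t_W2 Pool.Agent.H919.FP.t_EX
  exact ⟨T, R, str, s, t, h, ofFP G, hs, ht, h1, h2, h3, h4, h5, h6⟩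

end Pool.Agent.Results.MP_911691_ag.NonAffinePoint
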